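import Mathlib

set_option autoImplicit false
set_option linter.unusedSectionVars false

namespace Pool.Agent.H.MP_f5ec7d_an

open Matrix
open scoped ComplexOrder MatrixOrder

variable {n : Type} [Fintype n] [DecidableEq n]

/-- real diagonal matrix -/
def D (a : n → ℝ) : Matrix n n ℂ := diagonal fun i => (a i : ℂ)

/-- unitary -/
def Un (U : Matrix n n ℂ) : Prop := U * star U = 1 ∧ star U * U = 1

theorem Un.one : Un (1 : Matrix n n ℂ) := by simp [Un]

theorem Un.star' {U : Matrix n n ℂ} (h : Un U) : Un (star U) := by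
  simpa [Un] using ⟨h.2, h.1⟩

theorem Un.mul {U V : Matrix n n ℂ} (h : Un U) (k : Un V) : Un (U * V) := by
  constructor
  · rw [star_mul, mul_assoc, ← mul_assoc V, k.1, one_mul, h.1]
  · rw [star_mul, mul_assoc, ← mul_assoc (star U), h.2, one_mul, k.2]

theorem Un.of_left {U : Matrix n n ℂ} (h : U * star U = 1) : Un U :=
  ⟨h, mul_eq_one_comm.mp h⟩

theorem Un.c1 {U : Matrix n n ℂ} (h : Un U) (X : Matrix n n ℂ) : U * (star U * X) = X := by
  rw [← mul_assoc, h.1, one_mul]

theorem Un.c2 {U : Matrix n n ℂ} (h : Un U) (X : Matrix n n ℂ) : star U * (U * X) = X := by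
  rw [← mul_assoc, h.2, one_mul]

theorem D_star (a : n → ℝ) : star (D a) = D a := by
  simp [D, star_eq_conjTranspose, diagonal_conjTranspose, Pi.star_def]

theorem D_mul (a b : n → ℝ) : D a * D b = D fun i => a i * b i := by
  simp [D, diagonal_mul_diagonal]

theorem D_add (a b : n → ℝ) : D a + D b = D fun i => a i + b i := by
  simp [D, diagonal_add]

theorem D_sub (a b : n → ℝ) : D a - D b = D fun i => a i - b i := by
  simp [D, diagonal_sub]

theorem D_smul (c : ℝ) (a : n → ℝ) : c • D a = D fun i => c * a i := by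
  ext i j
  by_cases h : i = j <;> simp [D, diagonal, h]

theorem D_const (c : ℝ) : D (fun _ : n => c) = c • (1 : Matrix n n ℂ) := by
  ext i j
  by_cases h : i = j <;> simp [D, diagonal, h, one_apply]

theorem D_psd {a : n → ℝ} (h : ∀ i, 0 ≤ a i) : (D a).PosSemidef :=
  PosSemidef.diagonal fun i => by simpa using h i

theorem D_psd_iff {a : n → ℝ} : (D a).PosSemidef ↔ ∀ i, 0 ≤ a i := by
  simp [D, posSemidef_diagonal_iff]

theorem conj_psd {X : Matrix n n ℂ} (h : X.PosSemidef) (U : Matrix n n ℂ) :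
    (U * X * star U).PosSemidef := h.mul_mul_conjTranspose_same U

theorem conj_herm {X : Matrix n n ℂ} (h : X.IsHermitian) (U : Matrix n n ℂ) :
    (U * X * star U).IsHermitian := isHermitian_mul_mul_conjTranspose U h

theorem D_herm (a : n → ℝ) : (D a).IsHermitian := D_star a

theorem inter {W : Matrix n n ℂ} {a b : n → ℝ} (h : W * D a = D b * W) (f : ℝ → ℝ) :
    W * D (fun i => f (a i)) = D (fun i => f (b i)) * W := by
  ext i j
  have := congrFun (congrFun h i) j
  simp only [D, mul_diagonal, diagonal_mul] at this ⊢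
  by_cases hw : W i j = 0
  · simp [hw]
  · have e : (a j : ℂ) = b i := mul_left_cancel₀ hw (by rw [this, mul_comm])
    have e' : a j = b i := by exact_mod_cast e
    rw [e', mul_comm]

open Classical in
/-- functional calculus -/
noncomputable def fc (f : ℝ → ℝ) (X : Matrix n n ℂ) : Matrix n n ℂ :=
  if h : X.IsHermitian then
    (h.eigenvectorUnitary : Matrix n n ℂ) * D (fun i => f (h.eigenvalues i)) *
      star (h.eigenvectorUnitary : Matrix n n ℂ)
  else 0

theorem eig_un {X : Matrix n n ℂ} (h : X.IsHermitian) :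
    Un (h.eigenvectorUnitary : Matrix n n ℂ) :=
  ⟨h.eigenvectorUnitary.2.2, h.eigenvectorUnitary.2.1⟩

theorem eig_eq {X : Matrix n n ℂ} (h : X.IsHermitian) :
    X = (h.eigenvectorUnitary : Matrix n n ℂ) * D h.eigenvalues *
      star (h.eigenvectorUnitary : Matrix n n ℂ) := h.spectral_theorem

theorem exists_diag {X : Matrix n n ℂ} (h : X.IsHermitian) :
    ∃ U a, Un U ∧ X = U * D a * star U := ⟨_, _, eig_un h, eig_eq h⟩

theorem exists_diag' {X : Matrix n n ℂ} (h : X.PosSemidef) :
    ∃ U a, Un U ∧ (∀ i, 0 ≤ a i) ∧ X = U * D a * star U :=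
  ⟨_, _, eig_un h.1, h.eigenvalues_nonneg, eig_eq h.1⟩

theorem fc_eq (f : ℝ → ℝ) {U : Matrix n n ℂ} (hU : Un U) (a : n → ℝ) :
    fc f (U * D a * star U) = U * D (fun i => f (a i)) * star U := by
  have h : (U * D a * star U).IsHermitian := conj_herm (D_herm a) U
  rw [fc, dif_pos h]
  have e := eig_eq h
  have hV := eig_un h
  generalize (h.eigenvectorUnitary : Matrix n n ℂ) = V at e hV ⊢
  generalize h.eigenvalues = b at e ⊢
  have e1 : (star V * U) * D a = D b * (star V * U) := by
    have := congrArg (fun M => star V * M * U) e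
    simp only [mul_assoc, hU.2, mul_one, hV.c2] at this
    simp only [mul_assoc, this]
  have e2 := congrArg (fun M => V * M * star U) (inter e1 f)
  simp only [mul_assoc, hU.1, mul_one, hV.c1] at e2
  simp only [mul_assoc, e2]

theorem fc_herm (f : ℝ → ℝ) {X : Matrix n n ℂ} (h : X.IsHermitian) : (fc f X).IsHermitian := by
  obtain ⟨U, a, hU, rfl⟩ := exists_diag h
  rw [fc_eq f hU]
  exact conj_herm (D_herm _) U

theorem fc_conj (f : ℝ → ℝ) {X W : Matrix n n ℂ} (h : X.IsHermitian) (hW : Un W) :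
    fc f (W * X * star W) = W * fc f X * star W := by
  obtain ⟨U, a, hU, rfl⟩ := exists_diag h
  have := fc_eq f (hW.mul hU) a
  rw [fc_eq f hU]
  simpa only [star_mul, mul_assoc] using this

theorem fc_comp (f g : ℝ → ℝ) {X : Matrix n n ℂ} (h : X.IsHermitian) :
    fc g (fc f X) = fc (fun t => g (f t)) X := by
  obtain ⟨U, a, hU, rfl⟩ := exists_diag h
  simp only [fc_eq _ hU]

theorem fc_psd {f : ℝ → ℝ} (hf : ∀ t, 0 ≤ t → 0 ≤ f t) {X : Matrix n n ℂ} (h : X.PosSemidef) :
    (fc f X).PosSemidef := by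
  obtain ⟨U, a, hU, ha, rfl⟩ := exists_diag' h
  rw [fc_eq _ hU]
  exact conj_psd (D_psd fun i => hf _ (ha i)) U

theorem fc_psd' {f : ℝ → ℝ} (hf : ∀ t, 0 ≤ f t) {X : Matrix n n ℂ} (h : X.IsHermitian) :
    (fc f X).PosSemidef := by
  obtain ⟨U, a, hU, rfl⟩ := exists_diag h
  rw [fc_eq _ hU]
  exact conj_psd (D_psd fun i => hf _) U

theorem fc_congr {f g : ℝ → ℝ} (hf : ∀ t, 0 ≤ t → f t = g t) {X : Matrix n n ℂ}
    (h : X.PosSemidef) : fc f X = fc g X := by
  obtain ⟨U, a, hU, ha, rfl⟩ := exists_diag' h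
  simp only [fc_eq _ hU, hf _ (ha _)]

theorem fc_mul (f g : ℝ → ℝ) {X : Matrix n n ℂ} (h : X.IsHermitian) :
    fc f X * fc g X = fc (fun t => f t * g t) X := by
  obtain ⟨U, a, hU, rfl⟩ := exists_diag h
  simp only [fc_eq _ hU]
  simp only [mul_assoc, hU.c2]
  rw [← mul_assoc (D _), D_mul]

theorem fc_id {X : Matrix n n ℂ} (h : X.IsHermitian) : fc (fun t => t) X = X := by
  obtain ⟨U, a, hU, rfl⟩ := exists_diag h
  simp only [fc_eq _ hU]

theorem fc_lin (c d : ℝ) (f g : ℝ → ℝ) {X : Matrix n n ℂ} (h : X.IsHermitian) :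
    fc (fun t => c * f t + d * g t) X = c • fc f X + d • fc g X := by
  obtain ⟨U, a, hU, rfl⟩ := exists_diag h
  simp only [fc_eq _ hU]
  rw [← D_add, ← D_smul, ← D_smul]
  simp only [mul_add, add_mul, mul_smul_comm, smul_mul_assoc]

theorem fc_const (c : ℝ) {X : Matrix n n ℂ} (h : X.IsHermitian) :
    fc (fun _ => c) X = c • (1 : Matrix n n ℂ) := by
  obtain ⟨U, a, hU, rfl⟩ := exists_diag h
  simp only [fc_eq _ hU, D_const, mul_smul_comm, smul_mul_assoc, mul_one, hU.1]

theorem quad_D (a : n → ℝ) (x : n → ℂ) :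
    star x ⬝ᵥ (D a *ᵥ x) = ((∑ i, a i * ‖x i‖ ^ 2 : ℝ) : ℂ) := by
  simp only [D, dotProduct, mulVec_diagonal, Pi.star_apply, Complex.ofReal_sum]
  refine Finset.sum_congr rfl fun i _ => ?_
  rw [mul_left_comm, Complex.star_def, Complex.conj_mul']
  push_cast
  ring

theorem count {M : Matrix n n ℂ} (hM : Un M) {a b : n → ℝ}
    (h : (D b - M * D a * star M).PosSemidef) (t : ℝ) :
    Fintype.card {i // t ≤ a i} ≤ Fintype.card {j // t ≤ b j} := by
  by_contra hc
  push Not at hc
  let ext : ({i // t ≤ a i} → ℂ) →ₗ[ℂ] (n → ℂ) :=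
    { toFun := fun c i => if h : t ≤ a i then c ⟨i, h⟩ else 0
      map_add' := fun c d => by ext i; by_cases h : t ≤ a i <;> simp [h]
      map_smul' := fun r c => by ext i; by_cases h : t ≤ a i <;> simp [h] }
  let res : (n → ℂ) →ₗ[ℂ] ({j // t ≤ b j} → ℂ) := LinearMap.funLeft ℂ ℂ Subtype.val
  let L := res ∘ₗ M.mulVecLin ∘ₗ ext
  obtain ⟨c, hc1, hc0⟩ := (LinearMap.ker L).exists_mem_ne_zero_of_ne_bot
    (LinearMap.ker_ne_bot_of_finrank_lt (f := L) (by simpa using hc))
  set y := ext c with hy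
  set x := M *ᵥ y with hx
  have hx0 : ∀ j, t ≤ b j → x j = 0 := fun j hj => congrFun (LinearMap.mem_ker.mp hc1) ⟨j, hj⟩
  have hy0 : ∀ i, ¬ t ≤ a i → y i = 0 := fun i hi => by simp [hy, ext, hi]
  have hyx : star M *ᵥ x = y := by rw [hx, mulVec_mulVec, hM.2, one_mulVec]
  have key : D b - M * D a * star M =
      D (fun j => b j - t) - M * D (fun i => a i - t) * star M := by
    rw [← D_sub, ← D_sub, D_const]
    simp only [mul_sub, sub_mul, mul_smul_comm, smul_mul_assoc, mul_one, hM.1]
    abel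
  have h1 := h.dotProduct_mulVec_nonneg x
  have e : star x ⬝ᵥ ((M * D (fun i => a i - t) * star M) *ᵥ x) =
      star y ⬝ᵥ (D (fun i => a i - t) *ᵥ y) := by
    have : star x ᵥ* M = star y := by
      rw [← hyx, star_mulVec (star M), ← star_eq_conjTranspose, star_star]
    rw [← mulVec_mulVec, ← mulVec_mulVec, hyx, dotProduct_mulVec, this]
  rw [key, sub_mulVec, dotProduct_sub, e, quad_D, quad_D, ← Complex.ofReal_sub,
    Complex.zero_le_real] at h1
  have h2 : 0 ≤ ∑ i, (a i - t) * ‖y i‖ ^ 2 := Finset.sum_nonneg fun i _ => by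
    by_cases hi : t ≤ a i
    · exact mul_nonneg (by linarith) (by positivity)
    · simp [hy0 i hi]
  have h3 : ∀ j ∈ Finset.univ, (b j - t) * ‖x j‖ ^ 2 ≤ 0 := fun j _ => by
    by_cases hj : t ≤ b j
    · simp [hx0 j hj]
    · exact mul_nonpos_of_nonpos_of_nonneg (by linarith) (by positivity)
  have h4 := (Finset.sum_eq_zero_iff_of_nonpos h3).mp
    (le_antisymm (Finset.sum_nonpos h3) (by linarith))
  have h5 : x = 0 := by
    ext j
    by_cases hj : t ≤ b j
    · exact hx0 j hj
    · have := h4 j (Finset.mem_univ _)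
      rcases mul_eq_zero.mp this with h | h
      · exact absurd (by linarith) hj
      · simpa using h
  have h6 : y = 0 := by rw [← hyx, h5, mulVec_zero]
  apply hc0
  ext i
  have := congrFun h6 i.1
  simpa [hy, ext, i.2] using this

theorem exists_perm {M : Matrix n n ℂ} (hM : Un M) {a b : n → ℝ}
    (h : (D b - M * D a * star M).PosSemidef) : ∃ σ : Equiv.Perm n, ∀ i, a i ≤ b (σ i) := by
  have := (Fintype.all_card_le_filter_rel_iff_exists_injective (fun i j => a i ≤ b j)).mp
    fun S => by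
      rcases S.eq_empty_or_nonempty with rfl | hS
      · simp
      obtain ⟨i, hi, hm⟩ := S.exists_min_image a hS
      have h1 := count hM h (a i)
      rw [Fintype.card_subtype, Fintype.card_subtype] at h1
      refine (Finset.card_le_card fun k hk => ?_).trans (h1.trans (Finset.card_le_card ?_))
      · simpa using hm k hk
      · intro j hj
        simp only [Finset.mem_filter, Finset.mem_univ, true_and] at hj ⊢
        exact ⟨i, hi, hj⟩
  obtain ⟨f, hf, h2⟩ := this
  exact ⟨Equiv.ofBijective f (Finite.injective_iff_bijective.mp hf), h2⟩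

theorem perm_conj (σ : Equiv.Perm n) :
    ∃ P : Matrix n n ℂ, Un P ∧ ∀ b : n → ℝ, P * D b * star P = D fun i => b (σ i) := by
  have key : ∀ b : n → ℝ, (of fun i j => if σ i = j then (1 : ℂ) else 0) * D b *
      star (of fun i j => if σ i = j then (1 : ℂ) else 0) = D fun i => b (σ i) := fun b => by
    ext i j
    rw [mul_apply]
    simp only [D, mul_diagonal, of_apply, star_apply]
    rw [Finset.sum_eq_single (σ i) (fun k _ hk => by simp [hk.symm]) (by simp)]
    by_cases h : i = j
    · simp [h]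
    · simp [h, Ne.symm h]
  refine ⟨_, Un.of_left ?_, key⟩
  simpa [D_const] using key fun _ => 1

theorem weyl {g : ℝ → ℝ} (hg : MonotoneOn g (Set.Ici 0)) {Y Z : Matrix n n ℂ}
    (hY : Y.PosSemidef) (hZ : Z.PosSemidef) (h : (Z - Y).PosSemidef) :
    ∃ W, Un W ∧ (W * fc g Z * star W - fc g Y).PosSemidef := by
  obtain ⟨U, a, hU, ha, rfl⟩ := exists_diag' hY
  obtain ⟨V, b, hV, hb, rfl⟩ := exists_diag' hZ
  have h1 := conj_psd h (star V)
  have e : star V * (V * D b * star V - U * D a * star U) * star (star V) =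
      D b - (star V * U) * D a * star (star V * U) := by
    simp only [mul_sub, sub_mul, star_mul, star_star, mul_assoc, hV.c2, hV.2, mul_one]
  rw [e] at h1
  obtain ⟨σ, hσ⟩ := exists_perm (hV.star'.mul hU) h1
  obtain ⟨P, hP, hP'⟩ := perm_conj σ
  refine ⟨U * P * star V, (hU.mul hP).mul hV.star', ?_⟩
  rw [fc_eq _ hU, fc_eq _ hV]
  have e2 : U * P * star V * (V * D (fun i => g (b i)) * star V) * star (U * P * star V) -
      U * D (fun i => g (a i)) * star U =
      U * (P * D (fun i => g (b i)) * star P - D (fun i => g (a i))) * star U := by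
    simp only [mul_sub, sub_mul, star_mul, star_star, mul_assoc, hV.c2]
  rw [e2, hP', D_sub]
  exact conj_psd (D_psd fun i => sub_nonneg.mpr (hg (ha i) (hb _) (hσ i))) U

end Pool.Agent.H.MP_f5ec7d_an
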