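import Pool.Agent.H.MP_f5ec7d_an.Basic

set_option autoImplicit false
set_option linter.unusedSectionVars false

namespace Pool.Agent.H.MP_f5ec7d_an

open Matrix Filter Topology
open scoped ComplexOrder MatrixOrder

variable {n : Type} [Fintype n] [DecidableEq n]

theorem functional (φ : Matrix n n ℂ →ₗ[ℂ] ℂ) : ∃ Z : Matrix n n ℂ, ∀ A, φ A = (Z * A).trace := by
  refine ⟨of fun i j => φ (single j i 1), fun A => ?_⟩
  conv_lhs => rw [matrix_eq_sum_single A]
  simp only [map_sum, trace, diag_apply, mul_apply, of_apply]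
  rw [Finset.sum_comm]
  refine Finset.sum_congr rfl fun i _ => Finset.sum_congr rfl fun j _ => ?_
  rw [mul_comm, ← smul_eq_mul, ← map_smul, smul_single, smul_eq_mul, mul_one]

theorem eq_zero_of_trace {Z : Matrix n n ℂ} (h : ∀ A, (Z * A).trace = 0) : Z = 0 :=
  trace_mul_conjTranspose_self_eq_zero_iff.mp (h _)

/-- irreducible pair -/
def Irr (X Y : Matrix n n ℂ) : Prop :=
  ∀ Z : Matrix n n ℂ, Z.IsHermitian → Z * X = X * Z → Z * Y = Y * Z → ∃ c : ℝ, Z = c • 1

theorem Irr.scalar {X Y : Matrix n n ℂ} (h : Irr X Y) (hX : X.IsHermitian) (hY : Y.IsHermitian)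
    {Z : Matrix n n ℂ} (h1 : Z * X = X * Z) (h2 : Z * Y = Y * Z) : ∃ c : ℂ, Z = c • 1 := by
  have hX' : star X = X := hX
  have hY' : star Y = Y := hY
  have k1 : star Z * X = X * star Z := by
    have := congrArg star h1
    rw [star_mul, star_mul, hX'] at this
    exact this.symm
  have k2 : star Z * Y = Y * star Z := by
    have := congrArg star h2
    rw [star_mul, star_mul, hY'] at this
    exact this.symm
  obtain ⟨a, ha⟩ := h (Z + star Z) (show star _ = _ by simp [add_comm])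
    (by rw [add_mul, mul_add, h1, k1]) (by rw [add_mul, mul_add, h2, k2])
  obtain ⟨b, hb⟩ := h (Complex.I • (Z - star Z))
    (show star _ = _ by simp [← smul_neg, star_smul])
    (by rw [smul_mul_assoc, mul_smul_comm, sub_mul, mul_sub, h1, k1])
    (by rw [smul_mul_assoc, mul_smul_comm, sub_mul, mul_sub, h2, k2])
  refine ⟨(a - Complex.I * b) / 2, ?_⟩
  have e : Z = (1 / 2 : ℂ) • ((Z + star Z) - Complex.I • (Complex.I • (Z - star Z))) := by
    rw [smul_smul, Complex.I_mul_I]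
    module
  rw [e, ha, hb]
  ext i j
  simp only [Matrix.smul_apply, Matrix.sub_apply, smul_eq_mul, Complex.real_smul]
  ring

theorem surjC {X Y : Matrix n n ℂ} (h : Irr X Y) (hX : X.IsHermitian) (hY : Y.PosSemidef)
    (h0 : Y ≠ 0) (T : Matrix n n ℂ) :
    ∃ (H K : Matrix n n ℂ) (t : ℂ), H * X - X * H + (K * Y - Y * K) + t • Y = T := by
  let L : (Matrix n n ℂ × Matrix n n ℂ × ℂ) →ₗ[ℂ] Matrix n n ℂ :=
    { toFun := fun p => p.1 * X - X * p.1 + (p.2.1 * Y - Y * p.2.1) + p.2.2 • Y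
      map_add' := fun p q => by
        simp only [Prod.fst_add, Prod.snd_add, add_mul, mul_add, add_smul]; abel
      map_smul' := fun c p => by
        simp only [Prod.smul_fst, Prod.smul_snd, smul_mul_assoc, mul_smul_comm, RingHom.id_apply,
          smul_add, smul_sub, smul_eq_mul, mul_smul] }
  have hL : LinearMap.range L = ⊤ := by
    by_contra hne
    obtain ⟨φ, hφ, hm⟩ := (LinearMap.range L).exists_le_ker_of_lt_top (lt_top_iff_ne_top.mpr hne)
    obtain ⟨Z, hZ⟩ := functional φ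
    have hv : ∀ p, (Z * L p).trace = 0 := fun p => (hZ _).symm.trans (hm ⟨p, rfl⟩)
    have h1 : Z * X = X * Z := by
      refine (sub_eq_zero.mp (eq_zero_of_trace fun A => ?_)).symm
      have := hv (A, 0, 0)
      simp only [L, LinearMap.coe_mk, AddHom.coe_mk, zero_mul, mul_zero, sub_self, add_zero,
        zero_smul, mul_sub, trace_sub] at this
      rw [sub_mul, trace_sub, ← this, ← mul_assoc, ← mul_assoc, trace_mul_cycle Z A X]
    have h2 : Z * Y = Y * Z := by
      refine (sub_eq_zero.mp (eq_zero_of_trace fun A => ?_)).symm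
      have := hv (0, A, 0)
      simp only [L, LinearMap.coe_mk, AddHom.coe_mk, zero_mul, mul_zero, sub_self, add_zero,
        zero_add, zero_smul, mul_sub, trace_sub] at this
      rw [sub_mul, trace_sub, ← this, ← mul_assoc, ← mul_assoc, trace_mul_cycle Z A Y]
    obtain ⟨c, rfl⟩ := h.scalar hX hY.1 h1 h2
    have h3 := hv (0, 0, 1)
    simp only [L, LinearMap.coe_mk, AddHom.coe_mk, zero_mul, mul_zero, sub_self,
      zero_add, one_smul, smul_mul_assoc, one_mul, trace_smul, smul_eq_mul, mul_eq_zero] at h3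
    rcases h3 with rfl | h3
    · exact hφ (LinearMap.ext fun A => by simp [hZ])
    · exact h0 (hY.trace_eq_zero_iff.mp h3)
  obtain ⟨p, hp⟩ := LinearMap.range_eq_top.mp hL T
  exact ⟨p.1, p.2.1, p.2.2, hp⟩

theorem surjR {X Y : Matrix n n ℂ} (h : Irr X Y) (hX : X.IsHermitian) (hY : Y.PosSemidef)
    (h0 : Y ≠ 0) (T : Matrix n n ℂ) :
    ∃ (H K S : Matrix n n ℂ) (t : ℝ), star H = -H ∧ star K = -K ∧
      H * X - X * H + (K * Y - Y * K) + t • Y + (S - star S) = T := by
  obtain ⟨H, K, t, e⟩ := surjC h hX hY h0 T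
  have hX' : star X = X := hX
  have hY' : star Y = Y := hY.1
  refine ⟨(1 / 2 : ℝ) • (H - star H), (1 / 2 : ℝ) • (K - star K), (1 / 2 : ℝ) • T, t.re,
    by simp [← smul_neg], by simp [← smul_neg], ?_⟩
  have e2 : t.re • Y = (1 / 2 : ℝ) • (t • Y + star t • Y) := by
    rw [← add_smul, Complex.star_def, Complex.add_conj]
    ext i j
    simp only [Matrix.smul_apply, smul_eq_mul, Complex.real_smul]
    push_cast
    ring
  rw [e2, ← e]
  simp only [star_smul, star_add, star_sub, star_mul, hX', hY', smul_mul_assoc, mul_smul_comm,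
    sub_mul, mul_sub, star_trivial]
  module

/-- square matrices -/
abbrev Mx (n : Type) := Matrix n n ℂ

open scoped Matrix.Norms.L2Operator in
theorem ift {X Y X' Y' C' : Matrix n n ℂ} (h : Irr X Y) (hX : X.IsHermitian) (hY : Y.PosSemidef)
    (h0 : Y ≠ 0) (hX' : X'.IsHermitian) (hY' : Y'.IsHermitian) (hC' : C'.IsHermitian) :
    ∀ᶠ r : ℝ in 𝓝 0, ∃ (U V : Matrix n n ℂ) (τ : ℝ), Un U ∧ Un V ∧ 0 < τ ∧
      U * (X - r • X') * star U + τ • (V * (Y - r • Y') * star V) = X + Y - r • C' := by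
  let F : ((Mx n) × (Mx n)) × (ℝ × ℝ) × ((Mx n) × (Mx n) × (Mx n)) → (Mx n) × (Mx n) × (Mx n) × ℝ := fun p =>
    (p.1.1 * star p.1.1 + (p.2.2.1 - star p.2.2.1),
     p.1.2 * star p.1.2 + (p.2.2.2.1 - star p.2.2.2.1),
     p.1.1 * (X - p.2.1.1 • X') * star p.1.1 + p.2.1.2 • (p.1.2 * (Y - p.2.1.1 • Y') * star p.1.2)
       + p.2.1.1 • C' + (p.2.2.2.2 - star p.2.2.2.2), p.2.1.1)
  let a : ((Mx n) × (Mx n)) × (ℝ × ℝ) × ((Mx n) × (Mx n) × (Mx n)) := ((1, 1), (0, 1), (0, 0, 0))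
  have d1 := (hasStrictFDerivAt_fst (𝕜 := ℝ) (p := a)).fst
  have d2 := (hasStrictFDerivAt_fst (𝕜 := ℝ) (p := a)).snd
  have d3 := (hasStrictFDerivAt_snd (𝕜 := ℝ) (p := a)).fst.fst
  have d4 := (hasStrictFDerivAt_snd (𝕜 := ℝ) (p := a)).fst.snd
  have d5 := (hasStrictFDerivAt_snd (𝕜 := ℝ) (p := a)).snd.fst
  have d6 := (hasStrictFDerivAt_snd (𝕜 := ℝ) (p := a)).snd.snd.fst
  have d7 := (hasStrictFDerivAt_snd (𝕜 := ℝ) (p := a)).snd.snd.snd
  have dF := ((d1.fun_mul' d1.star).fun_add (d5.fun_sub d5.star)).prodMk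
    (((d2.fun_mul' d2.star).fun_add (d6.fun_sub d6.star)).prodMk
    (((((((d1.fun_mul' ((d3.smul_const X').const_sub X)).fun_mul' d1.star).fun_add
      (d4.fun_smul ((d2.fun_mul' ((d3.smul_const Y').const_sub Y)).fun_mul' d2.star))).fun_add
      (d3.smul_const C')).fun_add (d7.fun_sub d7.star))).prodMk d3))
  obtain ⟨F', hF', hv⟩ : ∃ F', HasStrictFDerivAt (𝕜 := ℝ) F F' a ∧ ∀ p, F' p =
      (p.1.1 + star p.1.1 + (p.2.2.1 - star p.2.2.1),
       p.1.2 + star p.1.2 + (p.2.2.2.1 - star p.2.2.2.1),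
       p.1.1 * X + X * star p.1.1 + (p.1.2 * Y + Y * star p.1.2) + p.2.1.2 • Y
         + p.2.1.1 • (C' - X' - Y') + (p.2.2.2.2 - star p.2.2.2.2), p.2.1.1) := by
    refine ⟨_, dF, fun p => ?_⟩
    simp [a]
    refine ⟨by abel, by abel, ?_⟩
    module
  clear dF
  have hXs : star X = X := hX
  have hYs : star Y = Y := hY.1
  have hs : F'.range = ⊤ := by
    refine LinearMap.range_eq_top.mpr fun q => ?_
    obtain ⟨W1, W2, W3, ρ⟩ := q
    obtain ⟨H, K, S, t, hH, hK, e⟩ := surjR h hX hY h0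
      (W3 - ρ • (C' - X' - Y') - ((1 / 4 : ℝ) • ((W1 + star W1) * X + X * (W1 + star W1)) +
        (1 / 4 : ℝ) • ((W2 + star W2) * Y + Y * (W2 + star W2))))
    refine ⟨((H + (1 / 4 : ℝ) • (W1 + star W1), K + (1 / 4 : ℝ) • (W2 + star W2)), (ρ, t),
      ((1 / 2 : ℝ) • W1, (1 / 2 : ℝ) • W2, S)), (hv _).trans ?_⟩
    rw [eq_sub_iff_add_eq, eq_sub_iff_add_eq] at e
    simp only [star_add, star_smul, star_star, star_trivial, hH, hK, Prod.mk.injEq, and_true]
    refine ⟨by module, by module, ?_⟩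
    rw [← e]
    simp only [add_mul, mul_add, smul_mul_assoc, mul_smul_comm, mul_neg]
    module
  have : CompleteSpace (Mx n) := FiniteDimensional.complete ℝ (Mx n)
  have hm := hF'.map_nhds_eq_of_surj hs
  have hpos : ∀ᶠ p in 𝓝 a, 0 < p.2.1.2 :=
    d4.hasFDerivAt.continuousAt.eventually (lt_mem_nhds (by simp [a]))
  have him : F '' {p | 0 < p.2.1.2} ∈ 𝓝 (F a) := hm ▸ image_mem_map hpos
  have hc : Tendsto (fun r : ℝ => ((1, 1, X + Y, r) : (Mx n) × (Mx n) × (Mx n) × ℝ)) (𝓝 0) (𝓝 (F a)) := by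
    have : F a = (1, 1, X + Y, 0) := by simp [F, a]
    rw [this]
    exact Continuous.tendsto (by fun_prop) 0
  filter_upwards [hc.eventually him] with r hr
  obtain ⟨⟨⟨U, V⟩, ⟨r', τ⟩, S1, S2, S3⟩, hτ, he⟩ := hr
  simp only [F, Prod.mk.injEq] at he
  obtain ⟨e1, e2, e3, rfl⟩ := he
  have split : ∀ A B S : (Mx n), star A = A → star B = B → A + (S - star S) = B → A = B := by
    intro A B S hA hB e
    have e' := congrArg star e
    rw [star_add, star_sub, star_star, hA, hB] at e'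
    have : (2 : ℝ) • A = (2 : ℝ) • B := by
      rw [two_smul, two_smul]
      calc A + A = (A + (S - star S)) + (A + (star S - S)) := by abel
        _ = B + B := by rw [e, e']
    exact smul_right_injective (Mx n) two_ne_zero this
  have hXs' : star X' = X' := hX'
  have hYs' : star Y' = Y' := hY'
  have hCs' : star C' = C' := hC'
  refine ⟨U, V, τ, Un.of_left (split _ _ _ (by simp) (by simp) e1),
    Un.of_left (split _ _ _ (by simp) (by simp) e2), hτ, eq_sub_iff_add_eq.mpr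
      (split _ _ _ ?_ (by simp [hXs, hYs]) e3)⟩
  simp [hXs, hYs, hXs', hYs', hCs', mul_assoc]

end Pool.Agent.H.MP_f5ec7d_an
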