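import Pool.Agent.H.MP_f5ec7d_an.Rot
import Pool.Agent.H.MP_f5ec7d_an.Ift

set_option autoImplicit false
set_option linter.unusedSectionVars false

namespace Pool.Agent.H.MP_f5ec7d_an

open Matrix Filter Topology
open scoped ComplexOrder MatrixOrder

variable {n : Type} [Fintype n] [DecidableEq n]

/-- the double inequality between three matrices -/
def Tri (X Y Z : Matrix n n ℂ) : Prop :=
  ∃ U V, Un U ∧ Un V ∧ (Z - U * X * star U).PosSemidef ∧
    (V * Y * star V - (Z - U * X * star U)).PosSemidef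

/-- the double inequality for a pair -/
def GoodAt (f : ℝ → ℝ) (A B : Matrix n n ℂ) : Prop := Tri (fc f A) (fc f B) (fc f (A + B))

/-- the double inequality in a fixed size -/
def Good (n : Type) [Fintype n] [DecidableEq n] (f : ℝ → ℝ) : Prop :=
  ∀ A B : Matrix n n ℂ, A.PosSemidef → B.PosSemidef → GoodAt f A B

theorem Tri.conj {X Y Z W : Matrix n n ℂ} (h : Tri X Y Z) (hW : Un W) :
    Tri (W * X * star W) (W * Y * star W) (W * Z * star W) := by
  obtain ⟨U, V, hU, hV, h1, h2⟩ := h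
  refine ⟨W * U * star W, W * V * star W, (hW.mul hU).mul hW.star', (hW.mul hV).mul hW.star',
    ?_, ?_⟩
  · have := conj_psd h1 W
    simpa only [mul_sub, sub_mul, star_mul, star_star, mul_assoc, hW.c2] using this
  · have := conj_psd h2 W
    simpa only [mul_sub, sub_mul, star_mul, star_star, mul_assoc, hW.c2] using this

theorem GoodAt.conj {f : ℝ → ℝ} {A B W : Matrix n n ℂ} (hA : A.IsHermitian) (hB : B.IsHermitian)
    (h : GoodAt f A B) (hW : Un W) : GoodAt f (W * A * star W) (W * B * star W) := by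
  unfold GoodAt
  rw [← add_mul, ← mul_add, fc_conj f hA hW, fc_conj f hB hW, fc_conj f (hA.add hB) hW]
  exact Tri.conj h hW

theorem comp_step {f g : ℝ → ℝ} (hg : MonotoneOn g (Set.Ici 0)) (hf : ∀ t, 0 ≤ t → 0 ≤ f t)
    {A B U V : Matrix n n ℂ} (hA : A.PosSemidef) (hB : B.PosSemidef) (hU : Un U) (hV : Un V)
    (h1 : (fc f (A + B) - U * fc f A * star U).PosSemidef)
    (h2 : (V * fc f B * star V - (fc f (A + B) - U * fc f A * star U)).PosSemidef)
    (h : GoodAt g (U * fc f A * star U) (fc f (A + B) - U * fc f A * star U)) :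
    GoodAt (fun t => g (f t)) A B := by
  obtain ⟨U', V', hU', hV', k1, k2⟩ := h
  obtain ⟨W, hW, k3⟩ := weyl hg h1 (conj_psd (fc_psd hf hB) V) h2
  rw [add_sub_cancel, fc_conj g (fc_herm f hA.1) hU, fc_comp _ _ hA.1,
    fc_comp _ _ (hA.add hB).1] at k1 k2
  rw [fc_conj g (fc_herm f hB.1) hV, fc_comp _ _ hB.1] at k3
  refine ⟨U' * U, V' * W * V, hU'.mul hU, (hV'.mul hW).mul hV, ?_, ?_⟩
  · simpa only [star_mul, mul_assoc] using k1
  · have := (conj_psd k3 V').add k2
    simpa only [mul_sub, sub_mul, star_mul, mul_assoc, sub_add_sub_cancel] using this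

theorem Good.comp {f g : ℝ → ℝ} (hg : MonotoneOn g (Set.Ici 0)) (hf : ∀ t, 0 ≤ t → 0 ≤ f t)
    (h1 : Good n f) (h2 : Good n g) : Good n fun t => g (f t) := fun A B hA hB => by
  obtain ⟨U, V, hU, hV, k1, k2⟩ := h1 A B hA hB
  exact comp_step hg hf hA hB hU hV k1 k2 (h2 _ _ (conj_psd (fc_psd hf hA) U) k1)

section Blocks

variable (p : n → Prop) [DecidablePred p]

/-- block diagonal matrix along a predicate -/
def blk (X : Matrix {i // p i} {i // p i} ℂ) (Y : Matrix {i // ¬ p i} {i // ¬ p i} ℂ) :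
    Matrix n n ℂ :=
  (fromBlocks X 0 0 Y).submatrix (Equiv.sumCompl p).symm (Equiv.sumCompl p).symm

variable {p}
variable {X X' : Matrix {i // p i} {i // p i} ℂ} {Y Y' : Matrix {i // ¬ p i} {i // ¬ p i} ℂ}

theorem blk_mul : blk p X Y * blk p X' Y' = blk p (X * X') (Y * Y') := by
  simp [blk, submatrix_mul_equiv, fromBlocks_multiply]

theorem blk_add : blk p X Y + blk p X' Y' = blk p (X + X') (Y + Y') := by
  ext i j
  simp only [blk, Matrix.add_apply, submatrix_apply]
  rcases (Equiv.sumCompl p).symm i with i | i <;> rcases (Equiv.sumCompl p).symm j with j | j <;>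
    simp

theorem blk_sub : blk p X Y - blk p X' Y' = blk p (X - X') (Y - Y') := by
  rw [sub_eq_iff_eq_add, blk_add, sub_add_cancel, sub_add_cancel]

theorem blk_star : star (blk p X Y) = blk p (star X) (star Y) := by
  simp [blk, star_eq_conjTranspose, fromBlocks_conjTranspose]

theorem blk_one : blk p 1 1 = 1 := by
  simp [blk]

theorem blk_un (h : Un X) (k : Un Y) : Un (blk p X Y) :=
  Un.of_left (by rw [blk_star, blk_mul, h.1, k.1, blk_one])

theorem blk_psd (h : X.PosSemidef) (k : Y.PosSemidef) : (blk p X Y).PosSemidef := by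
  obtain ⟨A, rfl⟩ := (psd_iff X).mp h
  obtain ⟨B, rfl⟩ := (psd_iff Y).mp k
  refine (psd_iff _).mpr ⟨blk p A B, ?_⟩
  simp only [← star_eq_conjTranspose]
  rw [blk_star, blk_mul]

theorem blk_D (a : {i // p i} → ℝ) (b : {i // ¬ p i} → ℝ) :
    blk p (D a) (D b) = D fun i => Sum.elim a b ((Equiv.sumCompl p).symm i) := by
  simp only [blk, D, fromBlocks_diagonal, submatrix_diagonal_equiv]
  congr 1
  ext i
  simp only [Function.comp]
  rcases (Equiv.sumCompl p).symm i with j | j <;> simp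

theorem blk_fc (f : ℝ → ℝ) (h : X.IsHermitian) (k : Y.IsHermitian) :
    fc f (blk p X Y) = blk p (fc f X) (fc f Y) := by
  obtain ⟨U, a, hU, rfl⟩ := exists_diag h
  obtain ⟨V, b, hV, rfl⟩ := exists_diag k
  rw [fc_eq f hU, fc_eq f hV, ← blk_mul, ← blk_mul, ← blk_mul, ← blk_mul, ← blk_star, blk_D,
    blk_D, fc_eq f (blk_un hU hV)]
  congr 3
  ext i
  rcases (Equiv.sumCompl p).symm i with j | j <;> simp

theorem blk_good {f : ℝ → ℝ} (h : X.IsHermitian) (h' : X'.IsHermitian) (k : Y.IsHermitian)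
    (k' : Y'.IsHermitian) (g1 : GoodAt f X X') (g2 : GoodAt f Y Y') :
    GoodAt f (blk p X Y) (blk p X' Y') := by
  obtain ⟨U, V, hU, hV, a1, a2⟩ := g1
  obtain ⟨U', V', hU', hV', b1, b2⟩ := g2
  unfold GoodAt
  rw [blk_add, blk_fc f h k, blk_fc f h' k', blk_fc f (h.add h') (k.add k')]
  refine ⟨blk p U U', blk p V V', blk_un hU hU', blk_un hV hV', ?_, ?_⟩
  · simpa only [blk_star, blk_mul, blk_sub] using blk_psd a1 b1
  · simpa only [blk_star, blk_mul, blk_sub] using blk_psd a2 b2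

theorem eq_blk {M : Matrix n n ℂ} (h1 : ∀ i j, p i → ¬ p j → M i j = 0)
    (h2 : ∀ i j, ¬ p i → p j → M i j = 0) :
    M = blk p (M.submatrix Subtype.val Subtype.val) (M.submatrix Subtype.val Subtype.val) := by
  ext i j
  by_cases hi : p i <;> by_cases hj : p j <;>
    simp [blk, Equiv.sumCompl_symm_apply_of_pos, Equiv.sumCompl_symm_apply_of_neg, hi, hj, h1, h2]

end Blocks

theorem reducible {f : ℝ → ℝ}
    (ih : ∀ (m : Type) [Fintype m] [DecidableEq m], Fintype.card m < Fintype.card n → Good m f)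
    {X Y : Matrix n n ℂ} (hX : X.PosSemidef) (hY : Y.PosSemidef) (h : ¬ Irr X Y) :
    GoodAt f X Y := by
  unfold Irr at h
  push Not at h
  obtain ⟨Z, hZ, h1, h2, h3⟩ := h
  obtain ⟨W, z, hW, rfl⟩ := exists_diag hZ
  have hne : ∃ i j, z i ≠ z j := by
    by_contra hc
    push Not at hc
    rcases isEmpty_or_nonempty n with hn | ⟨⟨i⟩⟩
    · exact h3 0 (Subsingleton.elim _ _)
    · refine h3 (z i) ?_
      rw [show z = fun _ => z i from funext fun j => hc j i, D_const]
      simp [hW.1]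
  obtain ⟨i0, j0, hij⟩ := hne
  have key : ∀ M : Matrix n n ℂ, W * D z * star W * M = M * (W * D z * star W) →
      ∀ i j, z i ≠ z j → (star W * M * star (star W)) i j = 0 := fun M hM i j hz => by
    have e := congrArg (fun N => star W * N * W) hM
    simp only [mul_assoc, hW.c2, hW.2, mul_one] at e
    have e2 : D z * (star W * M * W) = (star W * M * W) * D z := by
      simpa only [mul_assoc] using e
    have e3 := congrFun (congrFun e2 i) j
    simp only [D, mul_diagonal, diagonal_mul] at e3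
    rw [star_star]
    by_contra hc
    rw [mul_comm] at e3
    exact hz (by exact_mod_cast mul_left_cancel₀ hc e3)
  have hX' := conj_psd hX (star W)
  have hY' := conj_psd hY (star W)
  have c1 : Fintype.card {i // z i = z i0} < Fintype.card n :=
    Fintype.card_subtype_lt (x := j0) (Ne.symm hij)
  have c2 : Fintype.card {i // ¬ z i = z i0} < Fintype.card n :=
    Fintype.card_subtype_lt (x := i0) (by simp)
  have g := blk_good (p := fun i => z i = z i0) (f := f) (hX'.submatrix Subtype.val).1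
    (hY'.submatrix Subtype.val).1 (hX'.submatrix Subtype.val).1 (hY'.submatrix Subtype.val).1
    (ih _ c1 _ _ (hX'.submatrix _) (hY'.submatrix _))
    (ih _ c2 _ _ (hX'.submatrix _) (hY'.submatrix _))
  rw [← eq_blk (fun i j hi hj => key X h1 i j (by rw [hi]; exact Ne.symm hj))
      (fun i j hi hj => key X h1 i j (by rw [hj]; exact hi)),
    ← eq_blk (fun i j hi hj => key Y h2 i j (by rw [hi]; exact Ne.symm hj))
      (fun i j hi hj => key Y h2 i j (by rw [hj]; exact hi))] at g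
  have := g.conj hX'.1 hY'.1 hW
  simpa only [star_star, mul_assoc, hW.c1, hW.1, mul_one] using this

/-- one kink function -/
noncomputable def kink (θ r t : ℝ) : ℝ := t - r * pp θ t

theorem kink_mono (θ : ℝ) {r : ℝ} (h0 : 0 ≤ r) (h1 : r ≤ 1) : Monotone (kink θ r) := by
  intro s t hst
  unfold kink pp
  rcases le_total (s - θ) 0 with hs | hs <;> rcases le_total (t - θ) 0 with ht | ht <;>
    simp only [max_eq_left, max_eq_right, hs, ht] <;> nlinarith

theorem kink_nonneg {θ : ℝ} (hθ : 0 ≤ θ) {r : ℝ} (h0 : 0 ≤ r) (h1 : r ≤ 1) (t : ℝ) (ht : 0 ≤ t) :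
    0 ≤ kink θ r t := by
  have := kink_mono θ h0 h1 ht
  rwa [kink, pp, max_eq_right (by linarith), mul_zero, sub_zero] at this

theorem kink_comp (θ : ℝ) {r s : ℝ} (h1 : r ≤ 1) (t : ℝ) :
    kink θ s (kink θ r t) = kink θ (r + s * (1 - r)) t := by
  unfold kink pp
  rcases le_total (t - θ) 0 with ht | ht
  · simp only [max_eq_right ht, mul_zero, sub_zero]
  · rw [max_eq_left ht, max_eq_left (by nlinarith)]
    ring

theorem fc_kink (θ r : ℝ) {X : Matrix n n ℂ} (h : X.IsHermitian) :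
    fc (kink θ r) X = X - r • fc (pp θ) X := by
  have := fc_lin 1 (-r) (fun t => t) (pp θ) h
  rw [fc_id h, one_smul, neg_smul, ← sub_eq_add_neg] at this
  rw [← this]
  congr 1
  ext t
  unfold kink
  ring

theorem irreducible {θ : ℝ} (hθ : 0 ≤ θ) {X Y : Matrix n n ℂ} (hX : X.PosSemidef)
    (hY : Y.PosSemidef) (h : Irr X Y) : ∀ᶠ r in 𝓝[>] (0 : ℝ), GoodAt (kink θ r) X Y := by
  have hr : ∀ᶠ r in 𝓝[>] (0 : ℝ), r ∈ Set.Ioo (0 : ℝ) 1 := Ioo_mem_nhdsGT one_pos
  by_cases h0 : Y = 0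
  · filter_upwards [hr] with r hr
    refine ⟨1, 1, Un.one, Un.one, ?_, ?_⟩
    · simp [h0, PosSemidef.zero]
    · simpa [h0] using fc_psd (kink_nonneg hθ hr.1.le hr.2.le) (X := 0) PosSemidef.zero
  have := ift h hX.1 hY h0 (fc_herm (pp θ) hX.1) (fc_herm (pp θ) hY.1)
    (fc_herm (pp θ) (hX.add hY).1)
  filter_upwards [hr, this.filter_mono nhdsWithin_le_nhds] with r hr ⟨U, V, τ, hU, hV, hτ, e⟩
  have hrot := rotfeld hθ hX hY
  have et := congrArg (fun M => (trace M).re) e
  simp only [trace_add, trace_smul, trace_mul_cycle _ _ (star U), trace_mul_cycle _ _ (star V),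
    hU.2, hV.2, one_mul, trace_sub, Complex.add_re, Complex.sub_re, Complex.real_smul,
    Complex.re_ofReal_mul] at et
  have hG := fc_psd (kink_nonneg hθ hr.1.le hr.2.le) hY
  rw [← fc_kink θ r hX.1, ← fc_kink θ r hY.1, ← fc_kink θ r (hX.add hY).1] at e
  have e' : fc (kink θ r) (X + Y) - U * fc (kink θ r) X * star U =
      τ • (V * fc (kink θ r) Y * star V) := by rw [← e, add_sub_cancel_left]
  refine ⟨U, V, hU, hV, e' ▸ (conj_psd hG V).smul hτ.le, ?_⟩
  rw [e']
  rcases le_or_gt τ 1 with h1 | h1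
  · have := (conj_psd hG V).smul (sub_nonneg.mpr h1)
    rwa [sub_smul, one_smul] at this
  · have t0 := Complex.le_def.mp hG.trace_nonneg
    have t1 : (fc (kink θ r) Y).trace.re = Y.trace.re - r * (fc (pp θ) Y).trace.re := by
      rw [fc_kink θ r hY.1]
      simp
    have t2 : (fc (kink θ r) Y).trace.re = 0 := by
      have : (τ - 1) * (fc (kink θ r) Y).trace.re ≤ 0 := by
        rw [t1]; nlinarith [hr.1]
      have t3 : (0 : ℝ) ≤ (fc (kink θ r) Y).trace.re := t0.1
      nlinarith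
    have t4 : fc (kink θ r) Y = 0 :=
      hG.trace_eq_zero_iff.mp (Complex.ext t2 t0.2.symm)
    simp [t4, PosSemidef.zero]

theorem psd_closed : IsClosed {M : Matrix n n ℂ | M.PosSemidef} := by
  simp only [posSemidef_iff_dotProduct_mulVec, Set.ofPred_and, Set.ofPred_forall]
  refine IsClosed.inter (isClosed_eq (by fun_prop) continuous_id) ?_
  exact isClosed_iInter fun x => isClosed_le continuous_const (by fun_prop)

theorem un_compact : IsCompact {U : Matrix n n ℂ | Un U} := by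
  refine (isCompact_univ_pi fun _ : n => isCompact_univ_pi fun _ : n =>
    isCompact_closedBall (0 : ℂ) 1).of_isClosed_subset ?_
    fun M h i _ j _ => mem_closedBall_zero_iff.mpr ?_
  · exact (isClosed_eq (by fun_prop) continuous_const).inter
      (isClosed_eq (by fun_prop) continuous_const)
  · exact entry_norm_bound_of_unitary (U := M) ⟨h.2, h.1⟩ i j

theorem kink_good {θ : ℝ} (hθ : 0 ≤ θ) (k : ℕ) : ∀ (n : Type) [Fintype n] [DecidableEq n],
    Fintype.card n = k → ∀ r, 0 ≤ r → r ≤ 1 → Good n (kink θ r) := by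
  induction k using Nat.strong_induction_on with
  | _ k ih =>
  intro n _ _ hk r0 h0 h1 A B hA hB
  let K : Set (ℝ × Matrix n n ℂ × Matrix n n ℂ) :=
    (Set.Icc 0 r0 ×ˢ ({U | Un U} ×ˢ {U | Un U})) ∩
      ({q | (A + B - q.1 • fc (pp θ) (A + B) -
          q.2.1 * (A - q.1 • fc (pp θ) A) * star q.2.1).PosSemidef} ∩
       {q | (q.2.2 * (B - q.1 • fc (pp θ) B) * star q.2.2 - (A + B - q.1 • fc (pp θ) (A + B) -
          q.2.1 * (A - q.1 • fc (pp θ) A) * star q.2.1)).PosSemidef})
  have hK : IsCompact K :=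
    (isCompact_Icc.prod (un_compact.prod un_compact)).inter_right
      ((psd_closed.preimage (by fun_prop)).inter (psd_closed.preimage (by fun_prop)))
  have hne : K.Nonempty := ⟨(0, 1, 1), ⟨⟨le_rfl, h0⟩, Un.one, Un.one⟩, by simpa using hB,
    by simp [PosSemidef.zero]⟩
  obtain ⟨⟨s, U, V⟩, ⟨⟨⟨s0, s1⟩, hU, hV⟩, k1, k2⟩, hm⟩ :=
    hK.exists_isMaxOn hne continuous_fst.continuousOn
  simp only [Set.mem_ofPred_eq] at s0 s1 hU hV k1 k2
  rw [← fc_kink θ s hA.1, ← fc_kink θ s (hA.add hB).1] at k1 k2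
  rw [← fc_kink θ s hB.1] at k2
  rcases s1.eq_or_lt with rfl | hlt
  · exact ⟨U, V, hU, hV, k1, k2⟩
  exfalso
  have hs1 : s ≤ 1 := by linarith
  have hX := conj_psd (fc_psd (kink_nonneg hθ s0 hs1) hA) U
  have hr : ∀ᶠ r in 𝓝[>] (0 : ℝ), r ∈ Set.Ioo (0 : ℝ) (r0 - s) := Ioo_mem_nhdsGT (by linarith)
  have ev : ∀ᶠ r in 𝓝[>] (0 : ℝ), GoodAt (kink θ r) (U * fc (kink θ s) A * star U)
      (fc (kink θ s) (A + B) - U * fc (kink θ s) A * star U) := by
    by_cases hI : Irr (U * fc (kink θ s) A * star U)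
      (fc (kink θ s) (A + B) - U * fc (kink θ s) A * star U)
    · exact irreducible hθ hX k1 hI
    · filter_upwards [hr] with r hr
      exact reducible (fun m _ _ hm => ih _ (hk ▸ hm) m rfl r hr.1.le (by linarith [hr.2]))
        hX k1 hI
  obtain ⟨r, hr, hg⟩ := (hr.and ev).exists
  have := comp_step ((kink_mono θ hr.1.le (by linarith [hr.2])).monotoneOn _)
    (kink_nonneg hθ s0 hs1) hA hB hU hV k1 k2 hg
  simp only [kink_comp θ hs1] at this
  obtain ⟨U', V', hU', hV', l1, l2⟩ := this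
  rw [fc_kink θ _ hA.1, fc_kink θ _ (hA.add hB).1] at l1 l2
  rw [fc_kink θ _ hB.1] at l2
  have hle : s + r * (1 - s) ≤ s := hm (a := (s + r * (1 - s), U', V'))
    ⟨⟨⟨by nlinarith [hr.1], by nlinarith [hr.1, hr.2]⟩, hU', hV'⟩, l1, l2⟩
  nlinarith [hr.1]

theorem affine_good {c σ : ℝ} (hc : 0 ≤ c) (hσ : 0 ≤ σ) : Good n fun t => c * 1 + σ * t :=
  fun A B hA hB => by
  unfold GoodAt
  rw [fc_lin c σ (fun _ => 1) (fun t => t) hA.1, fc_lin c σ (fun _ => 1) (fun t => t) hB.1,
    fc_lin c σ (fun _ => 1) (fun t => t) (hA.add hB).1, fc_id hA.1, fc_id hB.1,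
    fc_id (hA.add hB).1, fc_const _ hA.1, fc_const _ hB.1, fc_const _ (hA.add hB).1]
  refine ⟨1, 1, Un.one, Un.one, ?_, ?_⟩
  · simpa using hB.smul hσ
  · simpa using PosSemidef.one.smul hc

theorem interp {f : ℝ → ℝ} (hf : ConcaveOn ℝ (Set.Ici 0) f) (hm : MonotoneOn f (Set.Ici 0))
    (h0 : 0 ≤ f 0) {δ : ℝ} (hδ : 0 < δ) (T : Finset ℝ) : (∀ t ∈ T, δ ≤ t) →
    ∃ (h : ℝ → ℝ) (τ σ : ℝ), Good n h ∧ Monotone h ∧ 0 ≤ τ ∧ h 0 = f 0 ∧
      (∀ t ∈ T, t ≤ τ ∧ h t = f t) ∧ (∀ t, τ ≤ t → h t = f τ + σ * (t - τ)) ∧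
      (∀ t, τ ≤ t → δ ≤ t → f t ≤ h t) ∧ (τ = 0 ∨ τ ∈ T) := by
  have chord : ∀ x y z : ℝ, 0 ≤ x → x < y → y ≤ z →
      f z ≤ f x + (f y - f x) / (y - x) * (z - x) := fun x y z hx hxy hyz => by
    have := hf.neg.secant_mono (a := x) (x := y) (y := z) hx (hx.trans hxy.le)
      (hx.trans (hxy.le.trans hyz)) hxy.ne' (hxy.trans_le hyz).ne' hyz
    rw [le_div_iff₀ (by linarith)] at this
    simp only [Pi.neg_apply] at this
    have e : (-f y - -f x) / (y - x) = -((f y - f x) / (y - x)) := by ring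
    rw [e] at this
    linarith
  induction T using Finset.induction_on_max with
  | empty =>
    intro _
    have hσ : 0 ≤ (f δ - f 0) / (δ - 0) :=
      div_nonneg (sub_nonneg.mpr (hm Set.self_mem_Ici hδ.le hδ.le)) (by linarith)
    refine ⟨_, 0, (f δ - f 0) / (δ - 0), affine_good h0 hσ, fun s t hst => ?_, le_rfl, by simp,
      by simp, fun t _ => by ring, fun t _ ht => ?_, Or.inl rfl⟩
    · have := mul_le_mul_of_nonneg_left hst hσ
      simp only
      linarith
    · have := chord 0 δ t le_rfl hδ ht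
      simp only [sub_zero] at this ⊢
      linarith
  | insert t' T hT ih =>
    intro hδT
    obtain ⟨h, τ, σ, g1, g2, g3, g4, g5, g6, g7, g8⟩ :=
      ih fun t ht => hδT t (Finset.mem_insert_of_mem ht)
    have hδ' := hδT t' (Finset.mem_insert_self _ _)
    have hlt : τ < t' := by
      rcases g8 with rfl | g8
      · linarith
      · exact hT _ g8
    have a1 := g7 t' hlt.le hδ'
    have a2 : f τ ≤ f t' := hm g3 (g3.trans hlt.le) hlt.le
    have a3 : h τ = f τ := by simpa using g6 τ le_rfl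
    have a4 : 0 ≤ f τ := h0.trans (hm Set.self_mem_Ici g3 g3)
    obtain ⟨r, r0, r1, hr⟩ : ∃ r, 0 ≤ r ∧ r ≤ 1 ∧ r * (h t' - f τ) = h t' - f t' := by
      rcases (a2.trans a1).eq_or_lt with e | e
      · exact ⟨0, le_rfl, zero_le_one, by linarith⟩
      · exact ⟨(h t' - f t') / (h t' - f τ), div_nonneg (by linarith) (by linarith),
          (div_le_one (by linarith)).mpr (by linarith), div_mul_cancel₀ _ (by linarith)⟩
    have lo : ∀ t, t ≤ τ → kink (f τ) r (h t) = h t := fun t ht => by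
      have := g2 ht
      rw [kink, pp, max_eq_right (by linarith), mul_zero, sub_zero]
    have hi : ∀ t, τ ≤ t → kink (f τ) r (h t) = f τ + (1 - r) * σ * (t - τ) := fun t ht => by
      have := g2 ht
      rw [kink, pp, max_eq_left (by linarith), g6 t ht]
      ring
    have a5 : (1 - r) * σ * (t' - τ) = f t' - f τ := by
      rw [g6 t' hlt.le] at hr
      linarith
    refine ⟨fun t => kink (f τ) r (h t), t', (1 - r) * σ,
      g1.comp ((kink_mono _ r0 r1).monotoneOn _) (fun t ht => ?_)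
        (kink_good a4 _ n rfl r r0 r1), (kink_mono _ r0 r1).comp g2, by linarith,
      (lo 0 g3).trans g4, fun t ht => ?_, fun t ht => ?_, fun t ht _ => ?_,
      Or.inr (Finset.mem_insert_self _ _)⟩
    · have := g2 ht
      linarith
    · rcases Finset.mem_insert.mp ht with rfl | ht
      · exact ⟨le_rfl, by simp only; rw [hi _ hlt.le]; linarith⟩
      · exact ⟨(hT t ht).le, (lo t (g5 t ht).1).trans (g5 t ht).2⟩
    · simp only
      rw [hi t (by linarith)]
      linarith
    · simp only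
      rw [hi t (by linarith)]
      have := chord τ t' t g3 hlt ht
      rwa [← a5, mul_div_cancel_right₀ _ (by linarith)] at this

theorem main {f : ℝ → ℝ} (hf : ConcaveOn ℝ (Set.Ici 0) f) (hm : MonotoneOn f (Set.Ici 0))
    (h0 : 0 ≤ f 0) : Good n f := fun A B hA hB => by
  obtain ⟨U, a, hU, ha, eA⟩ := exists_diag' hA
  obtain ⟨V, b, hV, hb, eB⟩ := exists_diag' hB
  obtain ⟨W, c, hW, hc, eC⟩ := exists_diag' (hA.add hB)
  let T := (insert 1 (Finset.univ.image a ∪ Finset.univ.image b ∪ Finset.univ.image c)).filter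
    fun t : ℝ => 0 < t
  have hT : T.Nonempty := ⟨1, by simp [T]⟩
  obtain ⟨h, τ, σ, g1, -, -, g4, g5, -⟩ := interp (n := n) hf hm h0
    (Finset.mem_filter.mp (T.min'_mem hT)).2 T fun t ht => T.min'_le t ht
  have key : ∀ t, 0 ≤ t → t ∈ Finset.univ.image a ∪ Finset.univ.image b ∪ Finset.univ.image c →
      h t = f t := fun t ht ht' => by
    rcases ht.eq_or_lt with rfl | ht
    · exact g4
    · exact (g5 t (Finset.mem_filter.mpr ⟨Finset.mem_insert_of_mem ht', ht⟩)).2
  have := g1 A B hA hB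
  unfold GoodAt at this ⊢
  rw [eC] at this ⊢
  rw [eA, eB] at this ⊢
  simp only [fc_eq _ hU, fc_eq _ hV, fc_eq _ hW] at this ⊢
  simpa only [key _ (ha _) (by simp), key _ (hb _) (by simp), key _ (hc _) (by simp)] using this

end Pool.Agent.H.MP_f5ec7d_an
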