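import Pool.Agent.H.MP_f5ec7d_an.Basic

set_option autoImplicit false
set_option linter.unusedSectionVars false

namespace Pool.Agent.H.MP_f5ec7d_an

open Matrix
open scoped ComplexOrder MatrixOrder

variable {n : Type} [Fintype n] [DecidableEq n]

theorem psd_iff (M : Matrix n n ℂ) :
    M.PosSemidef ↔ ∃ B : Matrix n n ℂ, M = Bᴴ * B := by
  refine ⟨fun h => ?_, fun ⟨B, h⟩ => h ▸ posSemidef_conjTranspose_mul_self B⟩
  exact CStarAlgebra.nonneg_iff_eq_star_mul_self.mp h.nonneg

theorem trace_mul_nonneg {A B : Matrix n n ℂ} (hA : A.PosSemidef) (hB : B.PosSemidef) :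
    0 ≤ (A * B).trace.re := by
  obtain ⟨C, rfl⟩ := (psd_iff A).mp hA
  have := (hB.mul_mul_conjTranspose_same C).trace_nonneg
  rw [mul_assoc, trace_mul_comm]
  exact (Complex.le_def.mp this).1

/-- orthogonal projection -/
def Pr (P : Matrix n n ℂ) : Prop := star P = P ∧ P * P = P

theorem Pr.psd {P : Matrix n n ℂ} (h : Pr P) : P.PosSemidef := by
  have := posSemidef_conjTranspose_mul_self P
  rwa [← star_eq_conjTranspose, h.1, h.2] at this

theorem Pr.sub {P Q : Matrix n n ℂ} (h : Pr P) (k : Pr Q) (e : Q * P = Q) : Pr (P - Q) := by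
  have e' : P * Q = Q := by
    have := congrArg star e
    rwa [star_mul, h.1, k.1] at this
  refine ⟨by rw [star_sub, h.1, k.1], ?_⟩
  simp only [mul_sub, sub_mul, h.2, k.2, e, e']
  abel

theorem Pr.one : Pr (1 : Matrix n n ℂ) := by simp [Pr]

theorem fc_pr (p : ℝ → Prop) [DecidablePred p] {X : Matrix n n ℂ} (h : X.IsHermitian) :
    Pr (fc (fun t => if p t then 1 else 0) X) := by
  refine ⟨fc_herm _ h, ?_⟩
  rw [fc_mul _ _ h]
  congr 1
  ext t
  split_ifs <;> simp

theorem Pr.trace {P : Matrix n n ℂ} (h : Pr P) : P.trace.re = P.rank := by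
  obtain ⟨U, a, hU, rfl⟩ := exists_diag (X := P) h.1
  have h2 := congrArg (fun M => star U * M * U) h.2
  simp only [mul_assoc, hU.c2, hU.2, mul_one, D_mul] at h2
  have h3 : ∀ i, a i = if a i ≠ 0 then 1 else 0 := fun i => by
    have := congrFun (congrFun h2 i) i
    simp only [D, diagonal_apply_eq] at this
    have e : a i * a i = a i := by exact_mod_cast this
    split_ifs with hi
    · exact mul_left_cancel₀ hi (by rw [e, mul_one])
    · simpa using hi
  have u1 : IsUnit U.det := (isUnit_iff_isUnit_det U).mp (IsUnit.of_mul_eq_one _ hU.1)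
  have u2 : IsUnit (star U).det :=
    (isUnit_iff_isUnit_det _).mp (IsUnit.of_mul_eq_one _ hU.2)
  rw [rank_mul_eq_left_of_isUnit_det _ _ u2, rank_mul_eq_right_of_isUnit_det _ _ u1,
    trace_mul_cycle, hU.2, one_mul, D, trace_diagonal, rank_diagonal, Fintype.card_subtype,
    Finset.card_filter, Complex.re_sum]
  push_cast
  refine Finset.sum_congr rfl fun i _ => ?_
  rw [Complex.ofReal_re, h3 i]
  by_cases hi : a i = 0 <;> simp [hi]

theorem rank_add_le (A B : Matrix n n ℂ) : (A + B).rank ≤ A.rank + B.rank := by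
  unfold Matrix.rank
  refine le_trans (Submodule.finrank_mono ?_) (Submodule.finrank_add_le_finrank_add_finrank _ _)
  rintro _ ⟨x, rfl⟩
  rw [mulVecLin_add]
  exact Submodule.add_mem_sup ⟨x, rfl⟩ ⟨x, rfl⟩

theorem mul_fc (f : ℝ → ℝ) {X : Matrix n n ℂ} (h : X.IsHermitian) :
    X * fc f X = fc (fun t => t * f t) X := by
  rw [← fc_mul _ _ h, fc_id h]

theorem exists_join {P Q : Matrix n n ℂ} (hP : Pr P) (hQ : Pr Q) :
    ∃ R, Pr R ∧ P * R = P ∧ Q * R = Q ∧ R.trace.re ≤ P.trace.re + Q.trace.re := by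
  have hS : (P + Q).IsHermitian := (hP.psd.add hQ.psd).1
  have hR := fc_pr (fun t => t ≠ 0) hS
  set R := fc (fun t => if t ≠ 0 then 1 else 0) (P + Q) with hRdef
  have e1 : (P + Q) * R = P + Q := by
    rw [hRdef, mul_fc _ hS]
    conv_rhs => rw [← fc_id hS]
    congr 1
    ext t
    by_cases ht : t = 0 <;> simp [ht]
  have e2 : R = (P + Q) * fc (fun t => t⁻¹) (P + Q) := by
    rw [mul_fc _ hS, hRdef]
    congr 1
    ext t
    by_cases ht : t = 0 <;> simp [ht]
  have e3 : (P * (1 - R))ᴴ * (P * (1 - R)) + (Q * (1 - R))ᴴ * (Q * (1 - R)) = 0 := by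
    have : (P + Q) * (1 - R) = 0 := by rw [mul_sub, e1, mul_one, sub_self]
    simp only [← star_eq_conjTranspose, star_mul, hP.1, hQ.1, mul_assoc]
    rw [← mul_assoc P P, ← mul_assoc Q Q, hP.2, hQ.2, ← mul_add, ← add_mul, this, mul_zero]
  have p1 := (posSemidef_conjTranspose_mul_self (P * (1 - R))).trace_nonneg
  have p2 := (posSemidef_conjTranspose_mul_self (Q * (1 - R))).trace_nonneg
  have e4 := congrArg trace e3
  rw [trace_add, trace_zero] at e4
  have q1 := (add_eq_zero_iff_of_nonneg p1 p2).mp e4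
  have r1 := trace_conjTranspose_mul_self_eq_zero_iff.mp q1.1
  have r2 := trace_conjTranspose_mul_self_eq_zero_iff.mp q1.2
  rw [mul_sub, mul_one, sub_eq_zero] at r1 r2
  refine ⟨R, hR, r1.symm, r2.symm, ?_⟩
  rw [hR.trace, hP.trace, hQ.trace, e2]
  exact_mod_cast (rank_mul_le_left _ _).trans (rank_add_le _ _)

/-- positive part above a threshold -/
noncomputable def pp (θ t : ℝ) : ℝ := max (t - θ) 0

theorem pp_eq (θ : ℝ) {X : Matrix n n ℂ} (h : X.IsHermitian) :
    ∃ P, Pr P ∧ (fc (pp θ) X).trace.re = (P * X).trace.re - θ * P.trace.re := by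
  refine ⟨_, fc_pr (fun t => θ < t) h, ?_⟩
  have : fc (pp θ) X = (1 : ℝ) • (fc (fun t => if θ < t then 1 else 0) X * fc (fun t => t) X) +
      (-θ) • fc (fun t => if θ < t then 1 else 0) X := by
    rw [fc_mul _ _ h, ← fc_lin _ _ _ _ h]
    congr 1
    ext t
    unfold pp
    split_ifs with ht
    · rw [max_eq_left (by linarith)]; ring
    · rw [max_eq_right (by linarith)]; ring
  rw [this, fc_id h]
  simp [trace_add, trace_smul, sub_eq_add_neg]

theorem pp_ge (θ : ℝ) {X R : Matrix n n ℂ} (h : X.IsHermitian) (hR : Pr R) :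
    (R * X).trace.re - θ * R.trace.re ≤ (fc (pp θ) X).trace.re := by
  have h1 : (fc (pp θ) X).PosSemidef := fc_psd' (fun t => le_max_right _ _) h
  have h2 : (fc (fun t => 1 * pp θ t + 1 * ((-1) * t + θ * 1)) X).PosSemidef :=
    fc_psd' (fun t => by have := le_max_left (t - θ) 0; unfold pp; linarith) h
  rw [fc_lin _ _ _ _ h, fc_lin _ _ (fun t => t) (fun _ => 1) h, fc_id h, fc_const _ h] at h2
  have h3 := trace_mul_nonneg hR.psd h2
  have h4 := trace_mul_nonneg (Pr.one.sub hR (mul_one R)).psd h1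
  simp only [one_smul, mul_add, trace_add, mul_smul_comm, trace_smul, mul_one, sub_mul, one_mul,
    trace_sub, Complex.add_re, Complex.sub_re, Complex.real_smul, Complex.re_ofReal_mul] at h3 h4
  linarith

theorem rotfeld {θ : ℝ} (hθ : 0 ≤ θ) {X Y : Matrix n n ℂ} (hX : X.PosSemidef)
    (hY : Y.PosSemidef) :
    (fc (pp θ) X).trace.re + (fc (pp θ) Y).trace.re ≤ (fc (pp θ) (X + Y)).trace.re := by
  obtain ⟨P, hP, eP⟩ := pp_eq θ hX.1
  obtain ⟨Q, hQ, eQ⟩ := pp_eq θ hY.1
  obtain ⟨R, hR, h1, h2, h3⟩ := exists_join hP hQ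
  have h4 := pp_ge θ (hX.add hY).1 hR
  have h5 := trace_mul_nonneg (hR.sub hP h1).psd hX
  have h6 := trace_mul_nonneg (hR.sub hQ h2).psd hY
  simp only [mul_add, trace_add, sub_mul, trace_sub, Complex.add_re, Complex.sub_re] at h4 h5 h6
  nlinarith

end Pool.Agent.H.MP_f5ec7d_an
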